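import Pool.Agent.H904R6.CR.Stmts

set_option autoImplicit false

namespace Pool.Agent.H797R4.RT

open Pool.Agent.H904R6.CR

theorem large_lt {Γ : Fn} {F : Finset ℕ} {Z : Om} {m M : ℕ} (h : Large Γ F Z m M) : m < M := by
  obtain ⟨i, E, v, hK, -⟩ := h (fun _ => 0) (fun _ => by omega)
  obtain ⟨⟨x, hx⟩, h2, -⟩ := hK
  obtain ⟨h3, h4, -⟩ := h2 x hx
  omega

/-- the sequence of the intervals -/
noncomputable def es (P : ℕ → ℕ → Prop) (h : ∀ m, ∃ M, P m M) (m : ℕ) : ℕ → ℕ :=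
  fun t => Nat.rec m (fun _ x => by classical exact Nat.find (h x)) t

theorem es_zero (P : ℕ → ℕ → Prop) (h : ∀ m, ∃ M, P m M) (m : ℕ) : es P h m 0 = m := rfl

theorem es_succ (P : ℕ → ℕ → Prop) (h : ∀ m, ∃ M, P m M) (m t : ℕ) :
    IsLeast {M | P (es P h m t) M} (es P h m (t + 1)) := by
  classical
  have h1 : es P h m (t + 1) = Nat.find (h (es P h m t)) := by
    unfold es
    simp only
  rw [h1]
  refine ⟨Nat.find_spec (h (es P h m t)), ?_⟩
  intro M hM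
  exact Nat.find_min' _ hM

theorem VV_mono {Γ : Fn} {F : Finset ℕ} {f g : Col} {X' X : S} {m M : ℕ} {E : Finset ℕ} {v : ℕ}
    (hs : Sub X' X) (h : VV Γ F ⟨f, g, X', zC⟩ m M E v) : VV Γ F ⟨f, g, X, zC⟩ m M E v :=
  ⟨fun x hx => ⟨(h.1 x hx).1, (h.1 x hx).2.1, hs x (h.1 x hx).2.2⟩, h.2⟩

theorem KK_mono {Γ : Fn} {F : Finset ℕ} {f g : Col} {X' X : S} {m m' M : ℕ} {E : Finset ℕ} {v : ℕ}
    (hs : Sub X' X) (hm : m' ≤ m) (h : KK Γ F ⟨f, g, X', zC⟩ m M E v) :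
    KK Γ F ⟨f, g, X, zC⟩ m' M E v :=
  ⟨h.1, fun x hx => ⟨hm.trans (h.2.1 x hx).1, (h.2.1 x hx).2.1, hs x (h.2.1 x hx).2.2⟩,
    h.2.2.1, hm.trans h.2.2.2.1, h.2.2.2.2⟩

/-- every infinite path of the tree has a subset with a value -/
theorem path_value (hW : TaskW) {Bs : Set Fn} {Fm : Set Obj} (hFam : Fam Bs Fm)
    {A : S} {f g : Col} {X : S} {Γ1 Γ : Fn} (F1 F : Finset ℕ) (hΓ1 : Γ1 ∈ Bs) (hΓ : Γ ∈ Bs)
    (hAl : Al Fm A f g X)
    (N2' : ∀ X', Al Fm A f g X' → Sub X' X → ∀ m, ∃ M E v, VV Γ F ⟨f, g, X', zC⟩ m M E v)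
    (m : ℕ) (e : ℕ → ℕ) (he0 : e 0 = m) (hmono : StrictMono e)
    (hes : ∀ t, IsLeast {M | Large Γ1 F1 ⟨f, g, X, zC⟩ (e t) M} (e (t + 1)))
    (y : ℕ → ℕ) (hy0 : e 0 ≤ y 0 ∧ y 0 < e 1)
    (hy : ∀ n, e (y n + 1) ≤ y (n + 1) ∧ y (n + 1) < e (y n + 2))
    (hyX : ∀ n, X (y n) = true) :
    ∃ E v, (∃ M, VV Γ F ⟨f, g, X, zC⟩ m M E v) ∧ ∀ x ∈ E, ∃ n, x = y n := by
  classical
  by_contra hcon
  -- uniqueness of the sequence
  have huniq : ∀ (e' : ℕ → ℕ) (t : ℕ), e' 0 = m →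
      (∀ j ≤ t, IsLeast {M | Large Γ1 F1 (⟨f, g, X, zC⟩ : Om) (e' j) M} (e' (j + 1))) →
      ∀ j ≤ t + 1, e' j = e j := by
    intro e' t h0 hl j
    induction j with
    | zero => intro _; rw [h0, he0]
    | succ j ih =>
      intro hj
      have h1 := ih (by omega)
      have h2 := hl j (by omega)
      rw [h1] at h2
      exact h2.unique (hes j)
  let Y : Cs := fun x => if ∃ n, x = y n then ⟨1, by omega⟩ else ⟨0, by omega⟩
  have hY1 : ∀ x, (Y x : ℕ) = 1 → ∃ n, x = y n := by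
    intro x hx
    by_contra hh
    have : Y x = ⟨0, by omega⟩ := if_neg hh
    rw [this] at hx
    simp at hx
  have hY2 : ∀ n, (Y (y n) : ℕ) = 1 := by
    intro n
    have : Y (y n) = ⟨1, by omega⟩ := if_pos ⟨n, rfl⟩
    rw [this]
  have hO := hFam.bB Γ1 hΓ1 F1 Γ hΓ F m
  obtain ⟨C, hC1, hC2⟩ := hW Bs Fm hFam A ⟨f, g, X, zC⟩ _ hO ⟨Y, by
    rintro k (⟨y', -, h1, h2⟩ | ⟨M, -, E, v, hV, hE⟩ | ⟨e', t, h0, hl, -, ht, hno⟩)
    · obtain ⟨n, rfl⟩ := hY1 y' h1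
      rw [show (⟨f, g, X, zC⟩ : Om).X (y n) = X (y n) from rfl, hyX n] at h2
      cases h2
    · exact hcon ⟨E, v, ⟨M, hV⟩, fun x hx => hY1 x (hE x hx)⟩
    · have hu := huniq e' t h0 hl
      rcases Nat.eq_zero_or_pos t with h | h
      · subst h
        refine hno (y 0) ?_ ?_ (hY2 0)
        · rw [hu 0 (by omega)]; exact hy0.1
        · rw [hu 1 (by omega)]; exact hy0.2
      · have h1 : (Y (t - 1) : ℕ) = 1 := by
          rcases ht with h2 | h2
          · omega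
          · exact h2
        obtain ⟨n, hn⟩ := hY1 _ h1
        obtain ⟨h3, h4⟩ := hy n
        have e1 : y n + 1 = t := by omega
        have e2 : y n + 2 = t + 1 := by omega
        rw [e1] at h3
        rw [e2] at h4
        refine hno (y (n + 1)) ?_ ?_ (hY2 (n + 1))
        · rw [hu t (by omega)]; exact h3
        · rw [hu (t + 1) (by omega)]; exact h4⟩ hAl.2
  let X' : S := fun x => decide ((C x : ℕ) = 1)
  have hX'1 : ∀ x, X' x = true → (C x : ℕ) = 1 := fun x hx => of_decide_eq_true hx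
  have hX'2 : ∀ x, (C x : ℕ) = 1 → X' x = true := fun x hx => decide_eq_true hx
  have hsub : Sub X' X := by
    intro x hx
    by_contra hh
    refine hC1 (x + 1) (Or.inl ⟨x, by omega, hX'1 x hx, ?_⟩)
    exact Bool.eq_false_iff.mpr hh
  have hinf : {x | X' x = true}.Infinite := by
    -- elements exist in the intervals
    have hstep : ∀ t, (t = 0 ∨ (C (t - 1) : ℕ) = 1) → ∃ z, e t ≤ z ∧ z < e (t + 1) ∧ (C z : ℕ) = 1 := by
      intro t ht
      by_contra hh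
      refine hC1 (e (t + 1)) (Or.inr (Or.inr ⟨e, t, he0, fun j _ => hes j, le_refl _, ht, ?_⟩))
      intro y' h1 h2 h3
      exact hh ⟨y', h1, h2, h3⟩
    rw [Set.infinite_iff_exists_gt]
    intro N
    induction N with
    | zero =>
      obtain ⟨z, h1, h2, h3⟩ := hstep 0 (Or.inl rfl)
      obtain ⟨z', h1', h2', h3'⟩ := hstep (z + 1) (Or.inr (by simpa using h3))
      refine ⟨z', hX'2 _ h3', ?_⟩
      have := hmono.id_le (z + 1)
      simp only [id] at this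
      omega
    | succ N ih =>
      obtain ⟨z, hz, hN⟩ := ih
      obtain ⟨z', h1', h2', h3'⟩ := hstep (z + 1) (Or.inr (by simpa using hX'1 z hz))
      refine ⟨z', hX'2 _ h3', ?_⟩
      have := hmono.id_le (z + 1)
      simp only [id] at this
      omega
  have hAl' : Al Fm A f g X' := by
    refine ⟨hinf, fun T hT => ?_⟩
    exact hC2 (sub ph2 T) (hFam.p2 T hT)
  obtain ⟨M, E, v, hV⟩ := N2' X' hAl' hsub m
  exact hC1 M (Or.inr (Or.inl ⟨M, le_refl _, E, v, VV_mono hsub hV, fun x hx => hX'1 x (hV.1 x hx).2.2⟩))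

theorem Ctr_mono {Γ1 : Fn} {F1 : Finset ℕ} {Γ : Fn} {F : Finset ℕ} {i1 i : Bool} {k l m : ℕ}
    {α D : S} {Z : Om} (hkl : k ≤ l) (h : Ctr Γ1 F1 Γ F i1 i k m α D Z) :
    Ctr Γ1 F1 Γ F i1 i l m α D Z := by
  rcases h with ⟨E, v, M, hM, h⟩ | ⟨E, v, M, hM, h⟩
  · exact Or.inl ⟨E, v, M, hM.trans hkl, h⟩
  · exact Or.inr ⟨E, v, M, hM.trans hkl, h⟩

theorem Ctr_dep {Γ1 : Fn} {F1 : Finset ℕ} {Γ : Fn} {F : Finset ℕ} {i1 i : Bool} {k m : ℕ}
    {α D D' : S} {Z : Om} (hD : ∀ x < k, D x = D' x) (h : Ctr Γ1 F1 Γ F i1 i k m α D Z) :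
    Ctr Γ1 F1 Γ F i1 i k m α D' Z := by
  rcases h with ⟨E, v, M, hM, h1, h2, h3⟩ | ⟨E, v, M, hM, h1, h2, h3⟩
  · refine Or.inl ⟨E, v, M, hM, h1, fun x hx => ?_, h3⟩
    rw [← hD x ((h1.2.1 x hx).2.1.trans_le hM)]
    exact h2 x hx
  · refine Or.inr ⟨E, v, M, hM, h1, fun x hx y hy hx' hy' => ?_, h3⟩
    rw [← hD x ((h1.1 x hx).2.1.trans_le hM)] at hx'
    rw [← hD y ((h1.1 y hy).2.1.trans_le hM)] at hy'
    exact h2 x hx y hy hx' hy'

/-- compactness of the Cantor space -/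
theorem compact_S (P : ℕ → S → Prop) (hm : ∀ k l D, k ≤ l → P k D → P l D)
    (hd : ∀ k D D', (∀ x < k, D x = D' x) → P k D → P k D') (hP : ∀ D, ∃ k, P k D) :
    ∃ k, ∀ D, P k D := by
  have hopen : ∀ k, IsOpen {D : S | P k D} := by
    intro k
    rw [isOpen_pi_iff]
    intro D hD
    refine ⟨Finset.range k, fun x => {D x}, fun x _ => ⟨isOpen_discrete _, rfl⟩, ?_⟩
    intro D' hD'
    refine hd k D D' (fun x hx => ?_) hD
    have := hD' x (by simpa using hx)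
    exact (Set.mem_singleton_iff.mp this).symm
  obtain ⟨k, hk⟩ := (isCompact_univ : IsCompact (Set.univ : Set S)).elim_directed_cover
    (fun k => {D : S | P k D}) hopen (fun D _ => Set.mem_iUnion.mpr (hP D))
    (directed_of_isDirected_le (fun k l hkl D hD => hm k l D hkl hD))
  exact ⟨k, fun D => hk (Set.mem_univ D)⟩

theorem taskM : TaskM := by
  classical
  intro hW hA hL Bs Fm hFam A f g X0 X Γ1 Γ F1 F i1 i hΓ1 hG1 hΓ hG hAl hsub N0 N0' N2 N2'
  -- bounds exist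
  have hbd : ∀ m, ∃ k, ∃ α, ∀ D, Ctr Γ1 F1 Γ F i1 i k m α D ⟨f, g, X, zC⟩ := by
    intro m
    have hLg : ∀ m, ∃ M, Large Γ1 F1 ⟨f, g, X, zC⟩ m M :=
      hA hW Bs Fm hFam A f g X0 Γ1 F1 hΓ1 hG1 N0' X hAl hsub
    let e := es (fun m M => Large Γ1 F1 ⟨f, g, X, zC⟩ m M) hLg m
    have he0 : e 0 = m := rfl
    have hes : ∀ t, IsLeast {M | Large Γ1 F1 ⟨f, g, X, zC⟩ (e t) M} (e (t + 1)) :=
      fun t => es_succ _ hLg m t
    have hmono : StrictMono e := strictMono_nat_of_lt_succ (fun t => large_lt (hes t).1)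
    obtain ⟨a, ha⟩ := hL e X (fun t E => ∃ v, KK Γ1 F1 ⟨f, g, X, zC⟩ (e t) (e (t + 1)) E v)
      (fun E v => ∃ M, VV Γ F ⟨f, g, X, zC⟩ m M E v) hmono
      (fun t E ⟨v, hv⟩ => ⟨hv.1, hv.2.1⟩)
      (fun t c hc => by
        obtain ⟨j, E, v, h1, h2⟩ := (hes t).1 c hc
        exact ⟨j, E, ⟨v, h1⟩, h2⟩)
      (fun E v ⟨M, hM⟩ => by rw [he0]; exact hM.2.2.1)
      (fun y hy0 hy hyX => path_value hW hFam F1 F hΓ1 hΓ hAl N2' m e he0 hmono hes y hy0 hy hyX)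
    -- the index of the interval
    let idx : ℕ → ℕ := fun v => if h : ∃ s, e s ≤ v ∧ v < e (s + 1) then h.choose else 0
    have hidx : ∀ v s, e s ≤ v → v < e (s + 1) → idx v = s := by
      intro v s h1 h2
      have hex : ∃ s, e s ≤ v ∧ v < e (s + 1) := ⟨s, h1, h2⟩
      have h3 : idx v = hex.choose := dif_pos hex
      obtain ⟨h4, h5⟩ := hex.choose_spec
      rw [h3]
      have h6 : hex.choose < s + 1 := hmono.lt_iff_lt.mp (h4.trans_lt h2)
      have h7 : s < hex.choose + 1 := hmono.lt_iff_lt.mp (h1.trans_lt h5)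
      omega
    let α : S := fun v => if i1 = i then i else (if a (idx v) = true then i else i1)
    have hcomp := compact_S (fun k D => Ctr Γ1 F1 Γ F i1 i k m α D ⟨f, g, X, zC⟩)
      (fun k l D hkl h => Ctr_mono hkl h) (fun k D D' hD h => Ctr_dep hD h) (by
        intro D
        rcases ha D with ⟨s, E, ⟨v, hv⟩, h1, h2⟩ | ⟨E, v, s, ⟨M, hM⟩, h1, h2, h3, h4⟩
        · refine ⟨e (s + 1), Or.inl ⟨E, v, e (s + 1), le_refl _, ?_, h1, ?_⟩⟩
          · exact KK_mono (fun x hx => hx) (by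
              have := hmono.monotone (Nat.zero_le s)
              rw [he0] at this
              exact this) hv
          · have h5 : idx v = s := hidx v s hv.2.2.2.1 hv.2.2.2.2.1
            show (if i1 = i then i else (if a (idx v) = true then i else i1)) = i1
            rw [h5, h2]
            by_cases h6 : i1 = i
            · rw [if_pos h6, h6]
            · rw [if_neg h6]; simp
        · refine ⟨M, Or.inr ⟨E, v, M, le_refl _, hM, h1, ?_⟩⟩
          have h5 : idx v = s := hidx v s h2 h3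
          show (if i1 = i then i else (if a (idx v) = true then i else i1)) = i
          rw [h5, h4]
          by_cases h6 : i1 = i
          · rw [if_pos h6]
          · rw [if_neg h6]; simp)
    obtain ⟨k, hk⟩ := hcomp
    exact ⟨k, α, hk⟩
  -- apply the test
  have hT := hAl.2 (objC Γ1 F1 Γ F i1 i) (hFam.bC Γ1 hΓ1 F1 Γ hΓ F i1 i)
  obtain ⟨m, b, -, hb⟩ := hT (fun m => hbd m) (by
    intro m b hfst
    obtain ⟨⟨α, hα⟩, -⟩ := hfst
    refine ⟨α, fun k hk => ?_⟩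
    obtain ⟨-, D, hD⟩ := hk
    exact hD (hα D))
  have hCtr : ∀ D, Ctr Γ1 F1 Γ F i1 i b m A D ⟨f, g, X, zC⟩ := by
    intro D
    by_contra hD
    exact hb b ⟨le_refl _, D, hD⟩
  -- pigeonhole
  obtain ⟨β, hβ⟩ : ∃ β : Fin b → Bool, {z | X z = true ∧ ∀ x : Fin b, g x z = β x}.Infinite := by
    by_contra hcon
    push Not at hcon
    have hcov : {z | X z = true} ⊆ ⋃ β : Fin b → Bool, {z | X z = true ∧ ∀ x : Fin b, g x z = β x} := by
      intro z hz
      exact Set.mem_iUnion.mpr ⟨fun x => g x z, hz, fun x => rfl⟩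
    exact hAl.1 ((Set.finite_iUnion (fun β => hcon β)).subset hcov)
  let D : S := fun x => if h : x < b then β ⟨x, h⟩ else false
  have hD : ∀ (x : ℕ) (h : x < b), D x = β ⟨x, h⟩ := fun x h => dif_pos h
  rcases hCtr D with ⟨E, v, M, hM, h1, h2, h3⟩ | ⟨E, v, M, hM, h1, h2, h3⟩
  · refine N0 m M E v (KK_mono hsub (le_refl _) h1) (hβ.mono ?_) h3
    rintro z ⟨hz1, hz2⟩
    refine ⟨hsub z hz1, fun x hx => ?_⟩
    have hxb : x < b := (h1.2.1 x hx).2.1.trans_le hM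
    rw [← h2 x hx, hD x hxb]
    exact hz2 ⟨x, hxb⟩
  · refine N2 m M E v D h1 (hβ.mono ?_) ?_ h3
    · rintro z ⟨hz1, hz2⟩
      refine ⟨hz1, fun x hx => ?_⟩
      have hxb : x < b := (h1.1 x hx).2.1.trans_le hM
      rw [hD x hxb]
      exact hz2 ⟨x, hxb⟩
    · intro x hx y hy hxy hx' hy'
      exact absurd (h2 x hx y hy hx' hy') hxy.ne

end Pool.Agent.H797R4.RT
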